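import Pool.Agent.Lib.MP_380ab1_coE.Main

/-!
# The logarithm of the number of Moore families and of the number of D-classes

`mooreNumber n` is the number of families of subsets of `{1, …, n}` which contain `∅` and are
closed under unions; `numD n m` is the number of D-classes of the `n × m` Boolean matrices.
-/

open Pool.Agent.BoolD

/-- `log₂` of the number of Moore families on `n` points is
`C(n, n/2) (1 + O(log n / n))`, and at least `C(n, n/2) (1 + 1/(n+2))`; the same for the number of
D-classes of `n × m` Boolean matrices, for all `m ≥ 2^n`. -/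
theorem Pool.Agent.Results.MP_380ab1_co.LogCount.result :
    (∀ n : ℕ, 3 ≤ n →
      (1 + 1 / ((n : ℝ) + 2)) * n.choose (n / 2) ≤ Real.logb 2 (mooreNumber n)) ∧
    (∀ n : ℕ, 2 ≤ n →
      Real.logb 2 (mooreNumber n) ≤ (1 + 154 * Real.logb 2 n / n) * n.choose (n / 2)) ∧
    (∀ n m : ℕ, 40 ≤ n → 2 ^ n ≤ m →
      (1 + 1 / ((n : ℝ) + 3)) * n.choose (n / 2) ≤ Real.logb 2 (numD n m) ∧
      Real.logb 2 (numD n m) ≤ (1 + 154 * Real.logb 2 n / n) * n.choose (n / 2)) :=
  ⟨fun _ hn => Pool.Agent.Lib.MP_380ab1_coE.moore_lower hn,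
    fun _ hn => Pool.Agent.Lib.MP_380ab1_coE.moore_upper hn,
    fun _ _ hn hm => Pool.Agent.Lib.MP_380ab1_coE.numD_bounds hn hm⟩
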