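import Pool.Agent.Lib.MP_380ab1_co.Final

/-!
# The number of D-classes of `n × m` Boolean matrices when `n / log m → 0`

`numD n m` is the number of D-classes of the `n × m` matrices over the Boolean semiring, and
`mooreNumber n` is the number of families of subsets of `{1, …, n}` which contain `∅` and are
closed under unions (equivalently, by complementation, of closure systems on `n` points).
-/

open Pool.Agent.BoolD Filter Topology
open scoped Nat

/-- In the regime `n / log m → 0` the number of D-classes of `n × m` Boolean matrices is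
asymptotic to `mooreNumber n / n!`.  Moreover the relative error is at most `2^(-2^n / n^5)` for
all `n ≥ 40` and all `m ≥ 2^n`. -/
theorem Pool.Agent.Results.MP_380ab1_co.MooreAsymptotics.result :
    (∀ ν μ : ℕ → ℕ, Tendsto ν atTop atTop → Tendsto μ atTop atTop →
      Tendsto (fun k => (ν k : ℝ) / Real.log (μ k)) atTop (𝓝 0) →
      Tendsto (fun k => (numD (ν k) (μ k) : ℝ) / ((mooreNumber (ν k) : ℝ) / (ν k)!))
        atTop (𝓝 1)) ∧
    (∀ n m : ℕ, 40 ≤ n → 2 ^ n ≤ m →
      |(n ! * numD n m : ℝ) / mooreNumber n - 1| ≤ 2 ^ (-(2 ^ n / n ^ 5 : ℝ))) :=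
  ⟨fun _ _ hν hμ h => asymptotic hν hμ h, fun _ _ hn hm => quantitative hn hm⟩
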